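import Pool.Agent.Q289.LZ.Limit

/-!
# The Lorenz transform of an atomless law on the unit square is a law
-/

set_option autoImplicit false

open MeasureTheory ProbabilityTheory Filter Topology

namespace Q289.LZ

/-- laws on the unit square without atoms in the marginals -/
structure Good (ν : Measure (ℝ × ℝ)) : Prop where
  prob : IsProbabilityMeasure ν
  supp : ∀ᵐ u ∂ν, u ∈ Set.Icc (0 : ℝ) 1 ×ˢ Set.Icc (0 : ℝ) 1
  at₁ : ∀ c : ℝ, ∀ᵐ u ∂ν, u.1 ≠ c
  at₂ : ∀ c : ℝ, ∀ᵐ u ∂ν, u.2 ≠ c

/-- abstract form of the two null set arguments -/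
theorem level_null {α : Type*} [MeasurableSpace α] {μ : Measure α} [IsProbabilityMeasure μ]
    {X : α → ℝ} (hX : Measurable X) (hat : ∀ c : ℝ, ∀ᵐ u ∂μ, X u ≠ c) (x : ℝ) :
    ∀ᵐ u ∂μ, μ.real {v | X v ≤ X u} ≠ x := by
  set F : ℝ → ℝ := fun y => μ.real {v | X v ≤ y} with hF
  have hmono : Monotone F := fun a b hab => measureReal_mono (fun v (hv : X v ≤ a) => hv.trans hab)
  set S : Set ℝ := {y | F y = x} with hS
  have h1 : ∀ᵐ u ∂μ, ¬ IsLeast S (X u) := by
    by_cases hex : ∃ m, IsLeast S m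
    · obtain ⟨m, hm⟩ := hex
      filter_upwards [hat m] with u hu h
      exact hu (h.unique hm)
    · exact Filter.Eventually.of_forall fun u h => hex ⟨_, h⟩
  have h2 : ∀ᵐ u ∂μ, ¬ IsGreatest S (X u) := by
    by_cases hex : ∃ m, IsGreatest S m
    · obtain ⟨m, hm⟩ := hex
      filter_upwards [hat m] with u hu h
      exact hu (h.unique hm)
    · exact Filter.Eventually.of_forall fun u h => hex ⟨_, h⟩
  have h3 : ∀ p q : ℚ, ∀ᵐ u ∂μ, F p = x → F q = x → ¬ ((p : ℝ) < X u ∧ X u ≤ q) := by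
    intro p q
    by_cases hpq : F p = x ∧ F q = x
    · rcases lt_or_ge (q : ℝ) (p : ℝ) with h | h
      · exact Filter.Eventually.of_forall fun u _ _ h' => by linarith [h'.1, h'.2]
      · have hsub : {v : α | X v ≤ (p : ℝ)} ⊆ {v : α | X v ≤ (q : ℝ)} :=
          fun v hv => le_trans (show X v ≤ (p : ℝ) from hv) h
        have h4 : μ.real ({v : α | X v ≤ (q : ℝ)} \ {v : α | X v ≤ (p : ℝ)}) = 0 := by
          rw [measureReal_sdiff hsub (measurableSet_le hX measurable_const)]
          have e1 : μ.real {v : α | X v ≤ (q : ℝ)} = x := hpq.2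
          have e2 : μ.real {v : α | X v ≤ (p : ℝ)} = x := hpq.1
          rw [e1, e2, sub_self]
        rw [measureReal_eq_zero_iff] at h4
        filter_upwards [measure_eq_zero_iff_ae_notMem.1 h4] with u hu _ _ h5
        exact hu ⟨h5.2, fun h6 => absurd (show X u ≤ (p : ℝ) from h6) (not_le.2 h5.1)⟩
    · exact Filter.Eventually.of_forall fun u h4 h5 => absurd ⟨h4, h5⟩ hpq
  filter_upwards [h1, h2, ae_all_iff.2 fun p => ae_all_iff.2 (h3 p)] with u hu1 hu2 hu3 hcon
  have hmem : X u ∈ S := hcon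
  -- there is a smaller and a larger element
  have h4 : ∃ s ∈ S, s < X u := by
    by_contra hno
    push Not at hno
    exact hu1 ⟨hmem, fun s hs => hno s hs⟩
  have h5 : ∃ s ∈ S, X u < s := by
    by_contra hno
    push Not at hno
    exact hu2 ⟨hmem, fun s hs => hno s hs⟩
  obtain ⟨s, hs, hsu⟩ := h4
  obtain ⟨t, ht, hut⟩ := h5
  obtain ⟨p, hp1, hp2⟩ := exists_rat_btwn hsu
  obtain ⟨q, hq1, hq2⟩ := exists_rat_btwn hut
  have hs' : F s = x := hs
  have ht' : F t = x := ht
  have hFp : F p = x := by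
    apply le_antisymm
    · rw [← ht']; exact hmono (by linarith)
    · rw [← hs']; exact hmono hp1.le
  have hFq : F q = x := by
    apply le_antisymm
    · rw [← ht']; exact hmono hq2.le
    · rw [← hs']; exact hmono (by linarith)
  exact hu3 p q hFp hFq ⟨hp2, hq1.le⟩

theorem inv_iff {α : Type*} [MeasurableSpace α] {μ : Measure α} [IsProbabilityMeasure μ]
    {X : α → ℝ} (hX : Measurable X) (hat : ∀ c : ℝ, ∀ᵐ u ∂μ, X u ≠ c) (x : ℝ) :
    ∀ᵐ u ∂μ, (μ.real {v | X v ≤ X u} ≤ x ↔
      (X u : EReal) ≤ genInv (fun y => μ.real {v | X v ≤ y}) x) := by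
  set F : ℝ → ℝ := fun y => μ.real {v | X v ≤ y} with hF
  have hmono : Monotone F := fun a b hab => measureReal_mono (fun v (hv : X v ≤ a) => hv.trans hab)
  have h1 : ∀ᵐ u ∂μ, ¬ (x < F (X u) ∧ ∀ y, y < X u → F y < x) := by
    by_cases hex : ∃ a, x < F a ∧ ∀ y, y < a → F y < x
    · obtain ⟨a, ha1, ha2⟩ := hex
      filter_upwards [hat a] with u hu h
      rcases lt_trichotomy (X u) a with h2 | h2 | h2
      · exact absurd (ha2 _ h2) (not_lt.2 h.1.le)
      · exact hu h2
      · exact absurd (h.2 _ h2) (not_lt.2 ha1.le)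
    · exact Filter.Eventually.of_forall fun u h => hex ⟨_, h⟩
  filter_upwards [h1, level_null hX hat x] with u hu1 hu2
  rw [le_genInv]
  constructor
  · intro h y hy
    by_contra hcon
    push Not at hcon
    exact hu2 (le_antisymm h (hy.trans (hmono hcon.le)))
  · intro h
    by_contra hcon
    push Not at hcon
    refine hu1 ⟨hcon, fun y hy => ?_⟩
    by_contra h3
    push Not at h3
    exact absurd (h y h3) (not_le.2 hy)

/-- the mean of the product -/
noncomputable def mean (ν : Measure (ℝ × ℝ)) : ℝ := ∫ u, u.1 * u.2 ∂ν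

/-- the law whose distribution function is the Lorenz curve of `ν` -/
noncomputable def T (ν : Measure (ℝ × ℝ)) : Measure (ℝ × ℝ) :=
  (ν.withDensity fun u => ENNReal.ofReal (u.1 * u.2 / mean ν)).map fun u => (F₁ ν u.1, F₂ ν u.2)

section

variable {ν : Measure (ℝ × ℝ)}

theorem Good.mean_pos (h : Good ν) : 0 < mean ν := by
  have := h.prob
  unfold mean
  rw [integral_pos_iff_support_of_nonneg_ae]
  · have h1 : Function.support (fun u : ℝ × ℝ => u.1 * u.2) =ᵐ[ν] Set.univ := by
      filter_upwards [h.at₁ 0, h.at₂ 0] with u h1 h2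
      apply propext
      change (u.1 * u.2 ≠ 0) ↔ True
      simp only [iff_true]
      exact mul_ne_zero h1 h2
    rw [measure_congr h1, measure_univ]
    exact one_pos
  · filter_upwards [h.supp] with u hu
    exact mul_nonneg hu.1.1 hu.2.1
  · exact int_prod h.supp

theorem Good.meas (h : Good ν) : Measurable fun u : ℝ × ℝ => (F₁ ν u.1, F₂ ν u.2) := by
  have := h.prob
  exact ((F₁_mono (ν := ν)).measurable.comp measurable_fst).prodMk
    ((F₂_mono (ν := ν)).measurable.comp measurable_snd)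

theorem meas_dens (c : ℝ) : Measurable fun u : ℝ × ℝ => ENNReal.ofReal (u.1 * u.2 / c) := by
  fun_prop

theorem Good.T_apply (h : Good ν) {A : Set (ℝ × ℝ)} (hA : MeasurableSet A) :
    (T ν) A = ENNReal.ofReal ((∫ u in (fun u : ℝ × ℝ => (F₁ ν u.1, F₂ ν u.2)) ⁻¹' A,
      u.1 * u.2 ∂ν) / mean ν) := by
  have := h.prob
  unfold T
  rw [Measure.map_apply h.meas hA, withDensity_apply _ (h.meas hA), ← integral_div,
    ofReal_integral_eq_lintegral_ofReal]
  · exact ((int_prod h.supp).div_const _).integrableOn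
  · filter_upwards [ae_restrict_of_ae h.supp] with u hu
    exact div_nonneg (mul_nonneg hu.1.1 hu.2.1) h.mean_pos.le

theorem Good.T_prob (h : Good ν) : IsProbabilityMeasure (T ν) := by
  refine ⟨?_⟩
  rw [h.T_apply MeasurableSet.univ, Set.preimage_univ, setIntegral_univ]
  change ENNReal.ofReal (mean ν / mean ν) = 1
  rw [div_self h.mean_pos.ne', ENNReal.ofReal_one]

theorem Good.T_good (h : Good ν) : Good (T ν) := by
  have hp := h.prob
  refine ⟨h.T_prob, ?_, ?_, ?_⟩
  · have hm : MeasurableSet {u : ℝ × ℝ | u ∈ Set.Icc (0 : ℝ) 1 ×ˢ Set.Icc (0 : ℝ) 1} :=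
      measurableSet_Icc.prod measurableSet_Icc
    unfold T
    rw [ae_map_iff h.meas.aemeasurable hm]
    exact Filter.Eventually.of_forall fun u => ⟨F₁_mem ν _, F₂_mem ν _⟩
  · intro c
    have hm : MeasurableSet {u : ℝ × ℝ | u.1 ≠ c} :=
      (measurableSet_singleton c).compl.preimage measurable_fst
    unfold T
    rw [ae_map_iff h.meas.aemeasurable hm]
    refine (withDensity_absolutelyContinuous _ _).ae_le ?_
    exact level_null measurable_fst h.at₁ c
  · intro c
    have hm : MeasurableSet {u : ℝ × ℝ | u.2 ≠ c} :=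
      (measurableSet_singleton c).compl.preimage measurable_snd
    unfold T
    rw [ae_map_iff h.meas.aemeasurable hm]
    refine (withDensity_absolutelyContinuous _ _).ae_le ?_
    exact level_null measurable_snd h.at₂ c

theorem Good.T_next (h : Good ν) : IsNext ν (T ν) := by
  have hp := h.prob
  refine ⟨h.T_good.supp, fun x₁ _ x₂ _ => ?_⟩
  have hm : MeasurableSet {v : ℝ × ℝ | v.1 ≤ x₁ ∧ v.2 ≤ x₂} := (meas₁ x₁).inter (meas₂ x₂)
  unfold Measure.real
  rw [h.T_apply hm, ENNReal.toReal_ofReal]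
  · unfold lorenz
    change _ / mean ν = _ / mean ν
    congr 1
    refine setIntegral_congr_set ?_
    filter_upwards [inv_iff measurable_fst h.at₁ x₁, inv_iff measurable_snd h.at₂ x₂] with u h1 h2
    apply propext
    change (ν.real {v | v.1 ≤ u.1} ≤ x₁ ∧ ν.real {v | v.2 ≤ u.2} ≤ x₂) ↔
      ((u.1 : EReal) ≤ genInv (F₁ ν) x₁ ∧ (u.2 : EReal) ≤ genInv (F₂ ν) x₂)
    rw [h1, h2]
    exact Iff.rfl
  · apply div_nonneg _ h.mean_pos.le
    apply setIntegral_nonneg_of_ae
    filter_upwards [h.supp] with u hu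
    exact mul_nonneg hu.1.1 hu.2.1

end

/-- the sequence of iterates -/
noncomputable def iter (ν : Measure (ℝ × ℝ)) : ℕ → Measure (ℝ × ℝ)
  | 0 => ν
  | n + 1 => T (iter ν n)

theorem iter_good {ν : Measure (ℝ × ℝ)} (h : Good ν) (n : ℕ) : Good (iter ν n) := by
  induction n with
  | zero => exact h
  | succ n ih => exact ih.T_good

end Q289.LZ
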