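import Pool.Agent.Q289.LZ.Step

/-!
# Iterated Lorenz curves of a law with infinitely many diagonal blocks
-/

set_option autoImplicit false

open MeasureTheory ProbabilityTheory Filter Topology

namespace Q289.LZ

section limit

variable {ν : ℕ → Measure (ℝ × ℝ)} {b : ℕ → ℝ}

/-- the boundaries of the blocks of the iterates -/
noncomputable def bd (ν : ℕ → Measure (ℝ × ℝ)) (b : ℕ → ℝ) : ℕ → ℕ → ℝ
  | 0, k => b k
  | n + 1, k => F₁ (ν n) (bd ν b n k)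

variable [hp : ∀ n, IsProbabilityMeasure (ν n)]

theorem supp_all (h0 : ∀ᵐ u ∂(ν 0), u ∈ Set.Icc (0 : ℝ) 1 ×ˢ Set.Icc (0 : ℝ) 1)
    (hn : ∀ n, IsNext (ν n) (ν (n + 1))) (n : ℕ) :
    ∀ᵐ u ∂(ν n), u ∈ Set.Icc (0 : ℝ) 1 ×ˢ Set.Icc (0 : ℝ) 1 := by
  cases n with
  | zero => exact h0
  | succ n => exact (hn n).supp

theorem bd_nonneg (hb : ∀ k, 0 ≤ b k) (n k : ℕ) : 0 ≤ bd ν b n k := by
  cases n with
  | zero => exact hb k
  | succ n => exact (F₁_mem (ν n) _).1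

theorem bd_blk (hn : ∀ n, IsNext (ν n) (ν (n + 1))) (hblk : ∀ k, Blk (ν 0) (b k)) (n k : ℕ) :
    Blk (ν n) (bd ν b n k) := by
  induction n with
  | zero => exact hblk k
  | succ n ih => exact (hn n).blk ih

theorem bd_lorenz₁ (hn : ∀ n, IsNext (ν n) (ν (n + 1))) (n k : ℕ) :
    lorenz (ν n) (bd ν b (n + 1) k) 1 = bd ν b (n + 2) k := by
  change lorenz (ν n) (F₁ (ν n) (bd ν b n k)) 1 = F₁ (ν (n + 1)) (F₁ (ν n) (bd ν b n k))
  rw [F₁_eq_of_supp (hn n).supp, (hn n).cdf _ (F₁_mem (ν n) _) 1 ⟨zero_le_one, le_rfl⟩]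

theorem bd_lorenz₂ (hn : ∀ n, IsNext (ν n) (ν (n + 1))) (hblk : ∀ k, Blk (ν 0) (b k)) (n k : ℕ) :
    lorenz (ν n) 1 (bd ν b (n + 1) k) = bd ν b (n + 2) k := by
  change lorenz (ν n) 1 (F₁ (ν n) (bd ν b n k)) = F₁ (ν (n + 1)) (F₁ (ν n) (bd ν b n k))
  rw [← (hn n).F₂_eq (bd_blk hn hblk n k), F₂_eq_of_supp (hn n).supp,
    (hn n).cdf 1 ⟨zero_le_one, le_rfl⟩ _ (F₁_mem (ν n) _)]

theorem bd_lorenz (hn : ∀ n, IsNext (ν n) (ν (n + 1))) (hblk : ∀ k, Blk (ν 0) (b k)) (n k : ℕ) :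
    lorenz (ν n) (bd ν b (n + 1) k) (bd ν b (n + 1) k) = bd ν b (n + 2) k := by
  change lorenz (ν n) (F₁ (ν n) (bd ν b n k)) (F₁ (ν n) (bd ν b n k)) =
    F₁ (ν (n + 1)) (F₁ (ν n) (bd ν b n k))
  rw [← (hn n).joint_eq (bd_blk hn hblk n k),
    (hn n).cdf _ (F₁_mem (ν n) _) _ (F₁_mem (ν n) _)]

theorem bd_anti (h0 : ∀ᵐ u ∂(ν 0), u ∈ Set.Icc (0 : ℝ) 1 ×ˢ Set.Icc (0 : ℝ) 1)
    (hn : ∀ n, IsNext (ν n) (ν (n + 1))) (hb : ∀ k, 0 ≤ b k) (hblk : ∀ k, Blk (ν 0) (b k))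
    (k : ℕ) : Antitone fun n => bd ν b (n + 1) k :=
  antitone_nat_of_succ_le fun n =>
    (hn n).F₁_le (supp_all h0 hn n) (bd_nonneg hb n k) (bd_blk hn hblk n k)

theorem bd_tendsto_one (h0 : ∀ᵐ u ∂(ν 0), u ∈ Set.Icc (0 : ℝ) 1 ×ˢ Set.Icc (0 : ℝ) 1)
    (hn : ∀ n, IsNext (ν n) (ν (n + 1)))
    (hlim : Tendsto (fun k => F₁ (ν 0) (b k)) atTop (𝓝 1)) (n : ℕ) :
    Tendsto (fun k => bd ν b (n + 1) k) atTop (𝓝 1) := by
  induction n with
  | zero => exact hlim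
  | succ n ih =>
    have h1 : Tendsto (fun k => 1 - (1 - bd ν b (n + 1) k) / ∫ u, u.1 * u.2 ∂(ν n)) atTop
        (𝓝 1) := by
      have := ((tendsto_const_nhds (x := (1 : ℝ))).sub ih).div_const (∫ u, u.1 * u.2 ∂(ν n))
      have h2 := (tendsto_const_nhds (x := (1 : ℝ))).sub this
      simpa using h2
    refine tendsto_of_tendsto_of_tendsto_of_le_of_le h1 (tendsto_const_nhds (x := (1 : ℝ)))
      (fun k => ?_) fun k => ?_
    · have := (hn n).one_sub (supp_all h0 hn n) (bd ν b n k)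
      change 1 - (1 - F₁ (ν n) (bd ν b n k)) / ∫ u, u.1 * u.2 ∂(ν n) ≤
        F₁ (ν (n + 1)) (F₁ (ν n) (bd ν b n k))
      linarith
    · exact (F₁_mem (ν (n + 1)) _).2

/-- iterated Lorenz curves of a law with infinitely many diagonal blocks cannot become independent
with marginals converging to a power -/
theorem no_limit (h0 : ∀ᵐ u ∂(ν 0), u ∈ Set.Icc (0 : ℝ) 1 ×ˢ Set.Icc (0 : ℝ) 1)
    (hn : ∀ n, IsNext (ν n) (ν (n + 1))) (hb : ∀ k, 0 ≤ b k) (hblk : ∀ k, Blk (ν 0) (b k))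
    (hlt : ∀ k, F₁ (ν 0) (b k) < 1)
    (hlim : Tendsto (fun k => F₁ (ν 0) (b k)) atTop (𝓝 1))
    {φ : ℝ} (hφ1 : 1 < φ) (hφ2 : φ < 2)
    (hi : TendstoUniformlyOn (fun n x => lorenz (ν n) x 1) (fun x => x ^ φ) atTop
      (Set.Icc (0 : ℝ) 1))
    (hii : TendstoUniformlyOn
      (fun n (x : ℝ × ℝ) => lorenz (ν n) x.1 x.2 - lorenz (ν n) x.1 1 * lorenz (ν n) 1 x.2)
      (fun _ => 0) atTop (Set.Icc (0 : ℝ) 1 ×ˢ Set.Icc (0 : ℝ) 1)) : False := by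
  set S : ℕ → ℕ → ℝ := fun n k => bd ν b (n + 1) k with hS
  have hSmem : ∀ n k, S n k ∈ Set.Icc (0 : ℝ) 1 := fun n k => F₁_mem (ν n) _
  have hanti : ∀ k, Antitone fun n => S n k := bd_anti h0 hn hb hblk
  -- the boundaries go to zero
  have hzero : ∀ k, Tendsto (fun n => S n k) atTop (𝓝 0) := by
    intro k
    have hbdd : BddBelow (Set.range fun n => S n k) := ⟨0, by rintro _ ⟨n, rfl⟩; exact (hSmem n k).1⟩
    have h1 := tendsto_atTop_ciInf (hanti k) hbdd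
    set l := ⨅ n, S n k with hl
    have hl0 : 0 ≤ l := le_ciInf fun n => (hSmem n k).1
    have hl1 : l < 1 := lt_of_le_of_lt (ciInf_le hbdd 0) (hlt k)
    have h2 : Tendsto (fun n => S (n + 1) k) atTop (𝓝 l) := (tendsto_add_atTop_iff_nat 1).2 h1
    have h3 : Tendsto (fun n => (S n k) ^ φ) atTop (𝓝 (l ^ φ)) :=
      h1.rpow_const (Or.inr (by linarith))
    have h4 : Tendsto (fun n => (S n k) ^ φ - S (n + 1) k) atTop (𝓝 0) := by
      rw [Metric.tendstoUniformlyOn_iff] at hi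
      rw [Metric.tendsto_atTop]
      intro ε hε
      obtain ⟨N, hN⟩ := eventually_atTop.1 (hi ε hε)
      refine ⟨N, fun n hn' => ?_⟩
      have := hN n hn' (S n k) (hSmem n k)
      rw [bd_lorenz₁ hn n k, Real.dist_eq] at this
      rw [Real.dist_eq, sub_zero]
      exact this
    have h5 : l ^ φ - l = 0 := tendsto_nhds_unique (h3.sub h2) h4
    rcases hl0.eq_or_lt with h | h
    · rw [← h] at h1; exact h1
    · have h6 : l ^ φ < l := by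
        calc l ^ φ < l ^ (1 : ℝ) := Real.rpow_lt_rpow_of_exponent_gt h hl1 hφ1
          _ = l := Real.rpow_one l
      linarith
  -- choose the parameters
  rw [Metric.tendstoUniformlyOn_iff] at hi hii
  obtain ⟨N₁, hN₁⟩ := eventually_atTop.1 (hi (1 / 16) (by norm_num))
  obtain ⟨N₂, hN₂⟩ := eventually_atTop.1 (hii (1 / 16) (by norm_num))
  set N := max N₁ N₂ with hN
  obtain ⟨k, hk⟩ := ((bd_tendsto_one h0 hn hlim (N + 1)).eventually
    (lt_mem_nhds (show (3 / 4 : ℝ) < 1 by norm_num))).exists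
  have hk' : 3 / 4 < S (N + 1) k := hk
  have hex : ∃ m, S (N + 1 + m) k ≤ 3 / 4 := by
    obtain ⟨m, hm⟩ := ((hzero k).eventually (gt_mem_nhds (show (0 : ℝ) < 3 / 4 by norm_num))).exists
    exact ⟨m, ((hanti k) (by omega : m ≤ N + 1 + m)).trans hm.le⟩
  classical
  have hm := Nat.find_spec hex
  have hmin := fun j => @Nat.find_min _ _ hex j
  set m := Nat.find hex with hmdef
  have hm0 : m ≠ 0 := by
    intro h
    rw [h, add_zero] at hm
    linarith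
  obtain ⟨j, hj⟩ := Nat.exists_eq_succ_of_ne_zero hm0
  have h1 : 3 / 4 < S (N + 1 + j) k := by
    have := hmin j (by omega)
    exact not_le.1 this
  have h2 : S (N + 1 + j + 1) k ≤ 3 / 4 := by
    have : N + 1 + m = N + 1 + j + 1 := by omega
    rw [← this]; exact hm
  have h3 := hN₁ (N + 1 + j) (by omega) (S (N + 1 + j) k) (hSmem _ k)
  rw [bd_lorenz₁ hn (N + 1 + j) k, Real.dist_eq] at h3
  have h4 := hN₂ (N + 1 + j) (by omega) (S (N + 1 + j) k, S (N + 1 + j) k)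
    ⟨hSmem _ k, hSmem _ k⟩
  simp only at h4
  rw [bd_lorenz₁ hn (N + 1 + j) k, bd_lorenz₂ hn hblk (N + 1 + j) k,
    bd_lorenz hn hblk (N + 1 + j) k, Real.dist_eq] at h4
  change |(S (N + 1 + j) k) ^ φ - S (N + 1 + j + 1) k| < 1 / 16 at h3
  change |0 - (S (N + 1 + j + 1) k - S (N + 1 + j + 1) k * S (N + 1 + j + 1) k)| < 1 / 16 at h4
  have h5 : 9 / 16 ≤ (S (N + 1 + j) k) ^ φ := by
    calc (9 / 16 : ℝ) = (3 / 4) ^ (2 : ℝ) := by norm_num
      _ ≤ (S (N + 1 + j) k) ^ (2 : ℝ) := Real.rpow_le_rpow (by norm_num) h1.le (by norm_num)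
      _ ≤ (S (N + 1 + j) k) ^ φ :=
        Real.rpow_le_rpow_of_exponent_ge (by linarith) (hSmem _ k).2 hφ2.le
  rw [abs_lt] at h3 h4
  nlinarith

end limit

end Q289.LZ
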