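import Mathlib

/-!
# The bivariate Lorenz transform: one step for block-diagonal laws
-/

set_option autoImplicit false

open MeasureTheory ProbabilityTheory Filter Topology

namespace Q289.LZ

/-- the generalized inverse `F⁻¹(x) = inf {y | F y ≥ x}` with values in `[-∞, ∞]` -/
noncomputable def genInv (F : ℝ → ℝ) (x : ℝ) : EReal := sInf (Real.toEReal '' {y : ℝ | x ≤ F y})

theorem le_genInv {F : ℝ → ℝ} {x u : ℝ} :
    (u : EReal) ≤ genInv F x ↔ ∀ y, x ≤ F y → u ≤ y := by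
  unfold genInv
  rw [le_sInf_iff]
  constructor
  · intro h y hy
    exact EReal.coe_le_coe_iff.1 (h y ⟨y, hy, rfl⟩)
  · rintro h _ ⟨y, hy, rfl⟩
    exact EReal.coe_le_coe_iff.2 (h y hy)

/-- first marginal distribution function of a law on the plane -/
noncomputable def F₁ (ν : Measure (ℝ × ℝ)) (y : ℝ) : ℝ := ν.real {v | v.1 ≤ y}

/-- second marginal distribution function of a law on the plane -/
noncomputable def F₂ (ν : Measure (ℝ × ℝ)) (y : ℝ) : ℝ := ν.real {v | v.2 ≤ y}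

/-- the bivariate Lorenz curve of the law `ν` -/
noncomputable def lorenz (ν : Measure (ℝ × ℝ)) (x₁ x₂ : ℝ) : ℝ :=
  (∫ u in {u : ℝ × ℝ | (u.1 : EReal) ≤ genInv (F₁ ν) x₁ ∧ (u.2 : EReal) ≤ genInv (F₂ ν) x₂},
    u.1 * u.2 ∂ν) / ∫ u, u.1 * u.2 ∂ν

section basic

variable {ν : Measure (ℝ × ℝ)} [IsProbabilityMeasure ν]

theorem F₁_mono : Monotone (F₁ ν) := fun a b hab =>
  measureReal_mono (fun v (hv : v.1 ≤ a) => hv.trans hab)

theorem F₂_mono : Monotone (F₂ ν) := fun a b hab =>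
  measureReal_mono (fun v (hv : v.2 ≤ a) => hv.trans hab)

theorem meas₁ (y : ℝ) : MeasurableSet {v : ℝ × ℝ | v.1 ≤ y} :=
  measurableSet_le measurable_fst measurable_const

theorem meas₂ (y : ℝ) : MeasurableSet {v : ℝ × ℝ | v.2 ≤ y} :=
  measurableSet_le measurable_snd measurable_const

/-- the part of the generalized inverse region, at a value of `F₁` -/
theorem region₁ (b : ℝ) : ∀ᵐ u ∂ν, ((u.1 : EReal) ≤ genInv (F₁ ν) (F₁ ν b) ↔ u.1 ≤ b) := by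
  have h1 : ∀ q : ℚ, ∀ᵐ u ∂ν, F₁ ν b ≤ F₁ ν q → ¬ ((q : ℝ) < u.1 ∧ u.1 ≤ b) := by
    intro q
    by_cases hq : F₁ ν b ≤ F₁ ν q
    · have h2 : ν.real {v | (q : ℝ) < v.1 ∧ v.1 ≤ b} = 0 := by
        rcases lt_or_ge b (q : ℝ) with hbq | hbq
        · have : {v : ℝ × ℝ | (q : ℝ) < v.1 ∧ v.1 ≤ b} = ∅ := by
            ext v
            simp only [Set.mem_ofPred_eq, Set.mem_empty_iff_false, iff_false, not_and, not_le]
            intro h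
            linarith
          rw [this]; simp
        · have h3 : {v : ℝ × ℝ | (q : ℝ) < v.1 ∧ v.1 ≤ b} = {v | v.1 ≤ b} \ {v | v.1 ≤ (q : ℝ)} := by
            ext v
            simp only [Set.mem_ofPred_eq, Set.mem_sdiff, not_le]
            tauto
          have hsub : {v : ℝ × ℝ | v.1 ≤ (q : ℝ)} ⊆ {v : ℝ × ℝ | v.1 ≤ b} :=
            fun v hv => le_trans (show v.1 ≤ (q : ℝ) from hv) hbq
          rw [h3, measureReal_sdiff hsub (meas₁ _)]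
          have h4 := F₁_mono (ν := ν) hbq
          have h5 : ν.real {v | v.1 ≤ b} = F₁ ν b := rfl
          have h6 : ν.real {v | v.1 ≤ (q : ℝ)} = F₁ ν q := rfl
          rw [h5, h6]
          linarith
      have h3 : ν {v | (q : ℝ) < v.1 ∧ v.1 ≤ b} = 0 := by
        rwa [measureReal_eq_zero_iff] at h2
      filter_upwards [measure_eq_zero_iff_ae_notMem.1 h3] with u hu _
      exact hu
    · exact Filter.Eventually.of_forall fun u h => absurd h hq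
  filter_upwards [ae_all_iff.2 h1] with u hu
  rw [le_genInv]
  constructor
  · intro h; exact h b le_rfl
  · intro h y hy
    by_contra hcon
    push Not at hcon
    obtain ⟨q, hq1, hq2⟩ := exists_rat_btwn hcon
    exact hu q (hy.trans (F₁_mono hq1.le)) ⟨hq2, h⟩

theorem region₁_one : ∀ᵐ u ∂ν, (u.1 : EReal) ≤ genInv (F₁ ν) 1 := by
  have h1 : ∀ q : ℚ, ∀ᵐ u ∂ν, 1 ≤ F₁ ν q → ¬ (q : ℝ) < u.1 := by
    intro q
    by_cases hq : 1 ≤ F₁ ν q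
    · have h2 : ν.real {v | v.1 ≤ (q : ℝ)}ᶜ = 0 := by
        rw [probReal_compl_eq_one_sub (meas₁ _)]
        have h3 : ν.real {v | v.1 ≤ (q : ℝ)} ≤ 1 := measureReal_le_one
        have h4 : 1 ≤ ν.real {v | v.1 ≤ (q : ℝ)} := hq
        linarith
      have h3 : ν {v | v.1 ≤ (q : ℝ)}ᶜ = 0 := by
        rwa [measureReal_eq_zero_iff] at h2
      filter_upwards [measure_eq_zero_iff_ae_notMem.1 h3] with u hu _ h
      exact hu (fun h' => absurd h (not_lt.2 h'))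
    · exact Filter.Eventually.of_forall fun u h => absurd h hq
  filter_upwards [ae_all_iff.2 h1] with u hu
  rw [le_genInv]
  intro y hy
  by_contra hcon
  push Not at hcon
  obtain ⟨q, hq1, hq2⟩ := exists_rat_btwn hcon
  exact hu q (hy.trans (F₁_mono hq1.le)) hq2

/-- the part of the generalized inverse region, at a value of `F₂` -/
theorem region₂ (b : ℝ) : ∀ᵐ u ∂ν, ((u.2 : EReal) ≤ genInv (F₂ ν) (F₂ ν b) ↔ u.2 ≤ b) := by
  have h1 : ∀ q : ℚ, ∀ᵐ u ∂ν, F₂ ν b ≤ F₂ ν q → ¬ ((q : ℝ) < u.2 ∧ u.2 ≤ b) := by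
    intro q
    by_cases hq : F₂ ν b ≤ F₂ ν q
    · have h2 : ν.real {v | (q : ℝ) < v.2 ∧ v.2 ≤ b} = 0 := by
        rcases lt_or_ge b (q : ℝ) with hbq | hbq
        · have : {v : ℝ × ℝ | (q : ℝ) < v.2 ∧ v.2 ≤ b} = ∅ := by
            ext v
            simp only [Set.mem_ofPred_eq, Set.mem_empty_iff_false, iff_false, not_and, not_le]
            intro h
            linarith
          rw [this]; simp
        · have h3 : {v : ℝ × ℝ | (q : ℝ) < v.2 ∧ v.2 ≤ b} = {v | v.2 ≤ b} \ {v | v.2 ≤ (q : ℝ)} := by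
            ext v
            simp only [Set.mem_ofPred_eq, Set.mem_sdiff, not_le]
            tauto
          have hsub : {v : ℝ × ℝ | v.2 ≤ (q : ℝ)} ⊆ {v : ℝ × ℝ | v.2 ≤ b} :=
            fun v hv => le_trans (show v.2 ≤ (q : ℝ) from hv) hbq
          rw [h3, measureReal_sdiff hsub (meas₂ _)]
          have h4 := F₂_mono (ν := ν) hbq
          have h5 : ν.real {v | v.2 ≤ b} = F₂ ν b := rfl
          have h6 : ν.real {v | v.2 ≤ (q : ℝ)} = F₂ ν q := rfl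
          rw [h5, h6]
          linarith
      have h3 : ν {v | (q : ℝ) < v.2 ∧ v.2 ≤ b} = 0 := by
        rwa [measureReal_eq_zero_iff] at h2
      filter_upwards [measure_eq_zero_iff_ae_notMem.1 h3] with u hu _
      exact hu
    · exact Filter.Eventually.of_forall fun u h => absurd h hq
  filter_upwards [ae_all_iff.2 h1] with u hu
  rw [le_genInv]
  constructor
  · intro h; exact h b le_rfl
  · intro h y hy
    by_contra hcon
    push Not at hcon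
    obtain ⟨q, hq1, hq2⟩ := exists_rat_btwn hcon
    exact hu q (hy.trans (F₂_mono hq1.le)) ⟨hq2, h⟩

theorem region₂_one : ∀ᵐ u ∂ν, (u.2 : EReal) ≤ genInv (F₂ ν) 1 := by
  have h1 : ∀ q : ℚ, ∀ᵐ u ∂ν, 1 ≤ F₂ ν q → ¬ (q : ℝ) < u.2 := by
    intro q
    by_cases hq : 1 ≤ F₂ ν q
    · have h2 : ν.real {v | v.2 ≤ (q : ℝ)}ᶜ = 0 := by
        rw [probReal_compl_eq_one_sub (meas₂ _)]
        have h3 : ν.real {v | v.2 ≤ (q : ℝ)} ≤ 1 := measureReal_le_one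
        have h4 : 1 ≤ ν.real {v | v.2 ≤ (q : ℝ)} := hq
        linarith
      have h3 : ν {v | v.2 ≤ (q : ℝ)}ᶜ = 0 := by
        rwa [measureReal_eq_zero_iff] at h2
      filter_upwards [measure_eq_zero_iff_ae_notMem.1 h3] with u hu _ h
      exact hu (fun h' => absurd h (not_lt.2 h'))
    · exact Filter.Eventually.of_forall fun u h => absurd h hq
  filter_upwards [ae_all_iff.2 h1] with u hu
  rw [le_genInv]
  intro y hy
  by_contra hcon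
  push Not at hcon
  obtain ⟨q, hq1, hq2⟩ := exists_rat_btwn hcon
  exact hu q (hy.trans (F₂_mono hq1.le)) hq2

theorem lorenz_F (a b : ℝ) : lorenz ν (F₁ ν a) (F₂ ν b) =
    (∫ u in {u : ℝ × ℝ | u.1 ≤ a ∧ u.2 ≤ b}, u.1 * u.2 ∂ν) / ∫ u, u.1 * u.2 ∂ν := by
  unfold lorenz
  congr 1
  refine setIntegral_congr_set ?_
  filter_upwards [region₁ (ν := ν) a, region₂ (ν := ν) b] with u h1 h2
  apply propext
  change ((u.1 : EReal) ≤ _ ∧ (u.2 : EReal) ≤ _) ↔ (u.1 ≤ a ∧ u.2 ≤ b)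
  rw [h1, h2]

theorem lorenz_F_one (a : ℝ) : lorenz ν (F₁ ν a) 1 =
    (∫ u in {u : ℝ × ℝ | u.1 ≤ a}, u.1 * u.2 ∂ν) / ∫ u, u.1 * u.2 ∂ν := by
  unfold lorenz
  congr 1
  refine setIntegral_congr_set ?_
  filter_upwards [region₁ (ν := ν) a, region₂_one (ν := ν)] with u h1 h2
  apply propext
  change ((u.1 : EReal) ≤ _ ∧ (u.2 : EReal) ≤ _) ↔ (u.1 ≤ a)
  rw [h1]
  tauto

theorem lorenz_one_F (b : ℝ) : lorenz ν 1 (F₂ ν b) =
    (∫ u in {u : ℝ × ℝ | u.2 ≤ b}, u.1 * u.2 ∂ν) / ∫ u, u.1 * u.2 ∂ν := by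
  unfold lorenz
  congr 1
  refine setIntegral_congr_set ?_
  filter_upwards [region₁_one (ν := ν), region₂ (ν := ν) b] with u h1 h2
  apply propext
  change ((u.1 : EReal) ≤ _ ∧ (u.2 : EReal) ≤ _) ↔ (u.2 ≤ b)
  rw [h2]
  tauto

theorem lorenz_one_one : lorenz ν 1 1 = (∫ u, u.1 * u.2 ∂ν) / ∫ u, u.1 * u.2 ∂ν := by
  unfold lorenz
  congr 1
  rw [← setIntegral_univ (μ := ν)]
  refine setIntegral_congr_set ?_
  filter_upwards [region₁_one (ν := ν), region₂_one (ν := ν)] with u h1 h2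
  apply propext
  change ((u.1 : EReal) ≤ _ ∧ (u.2 : EReal) ≤ _) ↔ True
  tauto

end basic

/-- a law is split at `b` if it lives on the two diagonal blocks defined by `b` -/
def Blk (ν : Measure (ℝ × ℝ)) (b : ℝ) : Prop := ∀ᵐ u ∂ν, (u.1 ≤ b ↔ u.2 ≤ b)

section step

variable {ν ν' : Measure (ℝ × ℝ)} [IsProbabilityMeasure ν] [IsProbabilityMeasure ν']

theorem int_prod (hs : ∀ᵐ u ∂ν, u ∈ Set.Icc (0 : ℝ) 1 ×ˢ Set.Icc (0 : ℝ) 1) :
    Integrable (fun u : ℝ × ℝ => u.1 * u.2) ν := by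
  refine Integrable.of_bound (C := 1) (by fun_prop) ?_
  filter_upwards [hs] with u hu
  obtain ⟨⟨h1, h2⟩, h3, h4⟩ := hu
  rw [Real.norm_eq_abs, abs_of_nonneg (mul_nonneg h1 h3)]
  exact mul_le_one₀ h2 h3 h4

omit [IsProbabilityMeasure ν] in
theorem mean_nonneg (hs : ∀ᵐ u ∂ν, u ∈ Set.Icc (0 : ℝ) 1 ×ˢ Set.Icc (0 : ℝ) 1) :
    0 ≤ ∫ u, u.1 * u.2 ∂ν := by
  apply integral_nonneg_of_ae
  filter_upwards [hs] with u hu
  obtain ⟨⟨h1, h2⟩, h3, h4⟩ := hu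
  exact mul_nonneg h1 h3

theorem F₁_mem (ν : Measure (ℝ × ℝ)) [IsProbabilityMeasure ν] (b : ℝ) :
    F₁ ν b ∈ Set.Icc (0 : ℝ) 1 := ⟨measureReal_nonneg, measureReal_le_one⟩

theorem F₂_mem (ν : Measure (ℝ × ℝ)) [IsProbabilityMeasure ν] (b : ℝ) :
    F₂ ν b ∈ Set.Icc (0 : ℝ) 1 := ⟨measureReal_nonneg, measureReal_le_one⟩

omit [IsProbabilityMeasure ν] in
theorem Blk.F_eq {b : ℝ} (h : Blk ν b) : F₂ ν b = F₁ ν b := by
  unfold F₁ F₂
  apply measureReal_congr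
  filter_upwards [h] with u hu
  exact propext hu.symm

omit [IsProbabilityMeasure ν'] in
theorem F₁_eq_of_supp (hs' : ∀ᵐ u ∂ν', u ∈ Set.Icc (0 : ℝ) 1 ×ˢ Set.Icc (0 : ℝ) 1) (x : ℝ) :
    F₁ ν' x = ν'.real {v | v.1 ≤ x ∧ v.2 ≤ 1} := by
  unfold F₁
  apply measureReal_congr
  filter_upwards [hs'] with u hu
  obtain ⟨⟨h1, h2⟩, h3, h4⟩ := hu
  apply propext
  change (u.1 ≤ x) ↔ (u.1 ≤ x ∧ u.2 ≤ 1)
  tauto

omit [IsProbabilityMeasure ν'] in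
theorem F₂_eq_of_supp (hs' : ∀ᵐ u ∂ν', u ∈ Set.Icc (0 : ℝ) 1 ×ˢ Set.Icc (0 : ℝ) 1) (x : ℝ) :
    F₂ ν' x = ν'.real {v | v.1 ≤ 1 ∧ v.2 ≤ x} := by
  unfold F₂
  apply measureReal_congr
  filter_upwards [hs'] with u hu
  obtain ⟨⟨h1, h2⟩, h3, h4⟩ := hu
  apply propext
  change (u.2 ≤ x) ↔ (u.1 ≤ 1 ∧ u.2 ≤ x)
  tauto

/-- `ν'` is a law on the unit square whose distribution function is the Lorenz curve of `ν` -/
structure IsNext (ν ν' : Measure (ℝ × ℝ)) : Prop where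
  supp : ∀ᵐ u ∂ν', u ∈ Set.Icc (0 : ℝ) 1 ×ˢ Set.Icc (0 : ℝ) 1
  cdf : ∀ x₁ ∈ Set.Icc (0 : ℝ) 1, ∀ x₂ ∈ Set.Icc (0 : ℝ) 1,
    ν'.real {v | v.1 ≤ x₁ ∧ v.2 ≤ x₂} = lorenz ν x₁ x₂

theorem IsNext.mean_pos (hn : IsNext ν ν')
    (hs : ∀ᵐ u ∂ν, u ∈ Set.Icc (0 : ℝ) 1 ×ˢ Set.Icc (0 : ℝ) 1) : 0 < ∫ u, u.1 * u.2 ∂ν := by
  refine (mean_nonneg hs).lt_of_ne' ?_
  intro h0
  have h1 := hn.cdf 1 ⟨zero_le_one, le_rfl⟩ 1 ⟨zero_le_one, le_rfl⟩
  rw [lorenz_one_one, h0, div_zero] at h1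
  have h2 : ν'.real {v : ℝ × ℝ | v.1 ≤ 1 ∧ v.2 ≤ 1} = 1 := by
    have h3 : ν'.real {v : ℝ × ℝ | v.1 ≤ 1 ∧ v.2 ≤ 1} = ν'.real Set.univ := by
      apply measureReal_congr
      filter_upwards [hn.supp] with u hu
      obtain ⟨⟨h1, h2⟩, h3, h4⟩ := hu
      apply propext
      change (u.1 ≤ 1 ∧ u.2 ≤ 1) ↔ True
      tauto
    rw [h3, probReal_univ]
  rw [h2] at h1
  exact one_ne_zero h1

/-- the value of the new marginal at the new boundary -/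
theorem IsNext.F₁_eq (hn : IsNext ν ν') (b : ℝ) :
    F₁ ν' (F₁ ν b) = (∫ u in {u : ℝ × ℝ | u.1 ≤ b}, u.1 * u.2 ∂ν) / ∫ u, u.1 * u.2 ∂ν := by
  rw [F₁_eq_of_supp hn.supp, hn.cdf _ (F₁_mem ν b) 1 ⟨zero_le_one, le_rfl⟩, lorenz_F_one]

theorem IsNext.F₂_eq (hn : IsNext ν ν') {b : ℝ} (hb : Blk ν b) :
    F₂ ν' (F₁ ν b) = F₁ ν' (F₁ ν b) := by
  rw [hn.F₁_eq, ← hb.F_eq, F₂_eq_of_supp hn.supp, hn.cdf 1 ⟨zero_le_one, le_rfl⟩ _ (F₂_mem ν b),
    lorenz_one_F]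
  congr 1
  refine setIntegral_congr_set ?_
  filter_upwards [hb] with u hu
  exact propext hu.symm

theorem IsNext.joint_eq (hn : IsNext ν ν') {b : ℝ} (hb : Blk ν b) :
    ν'.real {v | v.1 ≤ F₁ ν b ∧ v.2 ≤ F₁ ν b} = F₁ ν' (F₁ ν b) := by
  rw [hn.F₁_eq]
  nth_rewrite 2 [← hb.F_eq]
  rw [hn.cdf _ (F₁_mem ν b) _ (F₂_mem ν b), lorenz_F]
  congr 1
  refine setIntegral_congr_set ?_
  filter_upwards [hb] with u hu
  apply propext
  change (u.1 ≤ b ∧ u.2 ≤ b) ↔ (u.1 ≤ b)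
  tauto

theorem IsNext.blk (hn : IsNext ν ν') {b : ℝ} (hb : Blk ν b) : Blk ν' (F₁ ν b) := by
  set s := F₁ ν b with hs
  have h1 : ν'.real {v | v.1 ≤ s ∧ v.2 ≤ s} = ν'.real {v | v.1 ≤ s} := hn.joint_eq hb
  have h2 : ν'.real {v | v.1 ≤ s ∧ v.2 ≤ s} = ν'.real {v | v.2 ≤ s} := by
    rw [h1]; exact (hn.F₂_eq hb).symm
  have hm : MeasurableSet {v : ℝ × ℝ | v.1 ≤ s ∧ v.2 ≤ s} := (meas₁ s).inter (meas₂ s)
  have hsub1 : {v : ℝ × ℝ | v.1 ≤ s ∧ v.2 ≤ s} ⊆ {v | v.1 ≤ s} := fun v hv => hv.1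
  have hsub2 : {v : ℝ × ℝ | v.1 ≤ s ∧ v.2 ≤ s} ⊆ {v | v.2 ≤ s} := fun v hv => hv.2
  have h3 : ν'.real ({v | v.1 ≤ s} \ {v | v.1 ≤ s ∧ v.2 ≤ s}) = 0 := by
    rw [measureReal_sdiff hsub1 hm, h1, sub_self]
  have h4 : ν'.real ({v | v.2 ≤ s} \ {v | v.1 ≤ s ∧ v.2 ≤ s}) = 0 := by
    rw [measureReal_sdiff hsub2 hm, h2, sub_self]
  rw [measureReal_eq_zero_iff] at h3 h4
  filter_upwards [measure_eq_zero_iff_ae_notMem.1 h3, measure_eq_zero_iff_ae_notMem.1 h4]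
    with u hu1 hu2
  constructor
  · intro h
    by_contra hcon
    exact hu1 ⟨h, fun h' => hcon h'.2⟩
  · intro h
    by_contra hcon
    exact hu2 ⟨h, fun h' => hcon h'.1⟩

/-- the mass below the boundary decreases -/
theorem IsNext.F₁_le (hn : IsNext ν ν')
    (hs : ∀ᵐ u ∂ν, u ∈ Set.Icc (0 : ℝ) 1 ×ˢ Set.Icc (0 : ℝ) 1) {b : ℝ} (hb0 : 0 ≤ b)
    (hb : Blk ν b) : F₁ ν' (F₁ ν b) ≤ F₁ ν b := by
  rw [hn.F₁_eq, div_le_iff₀ (hn.mean_pos hs)]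
  have hi := int_prod hs
  have hA := meas₁ b
  set A : Set (ℝ × ℝ) := {u | u.1 ≤ b} with hAdef
  have h0 : F₁ ν b = ν.real A := rfl
  have h1 : ∫ u, u.1 * u.2 ∂ν = (∫ u in A, u.1 * u.2 ∂ν) + ∫ u in Aᶜ, u.1 * u.2 ∂ν :=
    (integral_add_compl hA hi).symm
  have h2 : ∫ u in A, u.1 * u.2 ∂ν ≤ b ^ 2 * ν.real A := by
    have h3 : ∫ u in A, b ^ 2 ∂ν = b ^ 2 * ν.real A := by
      rw [setIntegral_const, smul_eq_mul, mul_comm]
    rw [← h3]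
    refine setIntegral_mono_on_ae hi.integrableOn (integrable_const _).integrableOn hA ?_
    filter_upwards [hs, hb] with u hu hu2 huA
    obtain ⟨⟨h1, h2⟩, h3, h4⟩ := hu
    have h5 : u.1 ≤ b := huA
    have h6 := hu2.1 h5
    calc u.1 * u.2 ≤ b * b := mul_le_mul h5 h6 h3 hb0
      _ = b ^ 2 := by ring
  have h4 : b ^ 2 * ν.real Aᶜ ≤ ∫ u in Aᶜ, u.1 * u.2 ∂ν := by
    have h3 : ∫ u in Aᶜ, b ^ 2 ∂ν = b ^ 2 * ν.real Aᶜ := by
      rw [setIntegral_const, smul_eq_mul, mul_comm]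
    rw [← h3]
    refine setIntegral_mono_on_ae (integrable_const _).integrableOn hi.integrableOn hA.compl ?_
    filter_upwards [hs, hb] with u hu hu2 huA
    obtain ⟨⟨h1, h2⟩, h3, h4⟩ := hu
    have h5 : b < u.1 := not_le.1 huA
    have h6 : b < u.2 := by
      by_contra hcon
      exact absurd (hu2.2 (not_lt.1 hcon)) (not_le.2 h5)
    calc b ^ 2 = b * b := by ring
      _ ≤ u.1 * u.2 := mul_le_mul h5.le h6.le hb0 h1
  have h5 : ν.real Aᶜ = 1 - ν.real A := probReal_compl_eq_one_sub hA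
  have h6 : 0 ≤ ν.real A := measureReal_nonneg
  have h7 : ν.real A ≤ 1 := measureReal_le_one
  rw [h0, h1]
  rw [h5] at h4
  nlinarith

/-- control of the mass above the boundary -/
theorem IsNext.one_sub (hn : IsNext ν ν')
    (hs : ∀ᵐ u ∂ν, u ∈ Set.Icc (0 : ℝ) 1 ×ˢ Set.Icc (0 : ℝ) 1) (b : ℝ) :
    1 - F₁ ν' (F₁ ν b) ≤ (1 - F₁ ν b) / ∫ u, u.1 * u.2 ∂ν := by
  have hmp := hn.mean_pos hs
  have hi := int_prod hs
  have hA := meas₁ b
  set A : Set (ℝ × ℝ) := {u | u.1 ≤ b} with hAdef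
  have h0 : F₁ ν b = ν.real A := rfl
  have h1 : ∫ u, u.1 * u.2 ∂ν = (∫ u in A, u.1 * u.2 ∂ν) + ∫ u in Aᶜ, u.1 * u.2 ∂ν :=
    (integral_add_compl hA hi).symm
  have h5 : ν.real Aᶜ = 1 - ν.real A := probReal_compl_eq_one_sub hA
  have h4 : ∫ u in Aᶜ, u.1 * u.2 ∂ν ≤ ν.real Aᶜ := by
    have h3 : ∫ u in Aᶜ, (1 : ℝ) ∂ν = ν.real Aᶜ := by
      rw [setIntegral_const, smul_eq_mul, mul_one]
    rw [← h3]
    refine setIntegral_mono_on_ae hi.integrableOn (integrable_const _).integrableOn hA.compl ?_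
    filter_upwards [hs] with u hu _
    obtain ⟨⟨h1, h2⟩, h3, h4⟩ := hu
    exact mul_le_one₀ h2 h3 h4
  rw [hn.F₁_eq]
  rw [le_div_iff₀ hmp, sub_mul, div_mul_cancel₀ _ hmp.ne', one_mul, h0, ← h5]
  linarith

end step

end Q289.LZ
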